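import Pool.Agent.H287R3.RA.Corner

/-!
# Corner-free sets with coordinate symmetries
-/

set_option autoImplicit false

namespace Pool.Agent.Results.MP_db4732_co.CoordinateSymmetry

open Finset Equiv

/-- points of `(F_2^n)^2` -/
abbrev Pt (n : ℕ) := (Fin n → ZMod 2) × (Fin n → ZMod 2)

/-- `A` contains no nontrivial corner `(x, y), (x, y + z), (x + z, y)` -/
def CornerFree {n : ℕ} (A : Finset (Pt n)) : Prop :=
  ∀ x y z : Fin n → ZMod 2, (x, y) ∈ A → (x, y + z) ∈ A → (x + z, y) ∈ A → z = 0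

/-- `A` is invariant under the permutation `σ` of the `n` coordinates -/
def InvUnder {n : ℕ} (σ : Perm (Fin n)) (A : Finset (Pt n)) : Prop :=
  ∀ p ∈ A, ((fun i => p.1 (σ i), fun i => p.2 (σ i)) : Pt n) ∈ A

/-- the three double transpositions of four points -/
def klein : Fin 3 → Perm (Fin 4) :=
  ![swap 0 1 * swap 2 3, swap 0 2 * swap 1 3, swap 0 3 * swap 1 2]

/-- there are `t` disjoint blocks of four coordinates such that `A` is invariant under the
double transpositions of every block -/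
def KleinBlocks {n : ℕ} (t : ℕ) (A : Finset (Pt n)) : Prop :=
  ∃ B : Fin t × Fin 4 ↪ Fin n, ∀ (i : Fin t) (k : Fin 3),
    InvUnder ((klein k).viaEmbedding ⟨fun a => B (i, a), fun a a' h => by simpa using h⟩) A

/-- (1) A corner-free set `A ⊆ (F_2^n)^2` which is invariant under the double transpositions of
`t` disjoint blocks of four coordinates has at most `4 ^ n (29 / 32) ^ t` elements.
(2) So for every `ε > 0` there is a power-saving bound `|A| ≤ 4 ^ ((1 - c) n)`, `c = c(ε) > 0`, for
the corner-free sets with at least `ε n` such blocks.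
(3) A corner-free set invariant under all permutations of the coordinates has at most `4 * 3 ^ n`
elements, and this is sharp up to a factor `4 (n + 1)`: for every `n` some such set has at least
`3 ^ n / (n + 1)` elements. -/
theorem result :
    (∀ (n t : ℕ) (A : Finset (Pt n)), CornerFree A → KleinBlocks t A →
      (A.card : ℝ) ≤ 4 ^ n * (29 / 32) ^ t) ∧
    (∀ ε : ℝ, 0 < ε → ∃ c : ℝ, 0 < c ∧ ∀ (n t : ℕ) (A : Finset (Pt n)), CornerFree A →
      KleinBlocks t A → ε * n ≤ t → (A.card : ℝ) ≤ (4 : ℝ) ^ ((1 - c) * n)) ∧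
    (∀ (n : ℕ) (A : Finset (Pt n)), CornerFree A → (∀ σ : Perm (Fin n), InvUnder σ A) →
      A.card ≤ 4 * 3 ^ n) ∧
    (∀ n : ℕ, ∃ A : Finset (Pt n), CornerFree A ∧ (∀ σ : Perm (Fin n), InvUnder σ A) ∧
      3 ^ n ≤ (n + 1) * A.card) := by
  have h1 : ∀ (n t : ℕ) (A : Finset (Pt n)), CornerFree A → KleinBlocks t A →
      (A.card : ℝ) ≤ 4 ^ n * (29 / 32) ^ t := by
    intro n t A hA hB
    obtain ⟨B, hB⟩ := hB
    have h := H287R3.RA.Corner.blocks (A := A) hA B hB
    have h2 : (32 : ℝ) ^ t * A.card ≤ 29 ^ t * 4 ^ n := by exact_mod_cast h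
    rw [div_pow, mul_div_assoc', le_div_iff₀ (by positivity)]
    linarith
  refine ⟨h1, ?_, fun n A hA hinv => H287R3.RA.Corner.full_sym hA hinv,
    fun n => H287R3.RA.Corner.exists_sym n⟩
  intro ε hε
  have hlog : 0 < Real.logb 4 (32 / 29) := Real.logb_pos (by norm_num) (by norm_num)
  refine ⟨ε * Real.logb 4 (32 / 29), by positivity, ?_⟩
  intro n t A hA hB ht
  refine (h1 n t A hA hB).trans ?_
  have e1 : ((29 : ℝ) / 32) = (4 : ℝ) ^ (-Real.logb 4 (32 / 29)) := by
    rw [Real.rpow_neg (by norm_num), Real.rpow_logb (by norm_num) (by norm_num) (by norm_num)]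
    norm_num
  have e2 : ((29 : ℝ) / 32) ^ t = (4 : ℝ) ^ (-Real.logb 4 (32 / 29) * t) := by
    rw [Real.rpow_mul (by norm_num), ← e1, Real.rpow_natCast]
  rw [e2, ← Real.rpow_natCast (4 : ℝ) n, ← Real.rpow_add (by norm_num)]
  apply Real.rpow_le_rpow_of_exponent_le (by norm_num)
  nlinarith

end Pool.Agent.Results.MP_db4732_co.CoordinateSymmetry
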